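import Pool.Agent.V1179.MH.GH5

set_option autoImplicit false

/-!
# Sums and products: arithmetic and geometric progressions with the same start and step

Write `f(Z) = log Z (log₂ Z)² log₄ Z / (log₃ Z)²` (the size of the longest prime gaps below `Z` that are
known, from the starting library).

For every `k` and `ε > 0` there is `κ > 0` such that for all large `T` every rectangle
`[a, a + L) × [b, b + M)` with `a ≥ T ^ ε`, `b ≥ 2` and `L, M ≥ T ^ ε` contains a pair of integers
`(x, y)` such that no prime lies within `κ f(T)` of any of the `2 k + 1` numbers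

`x, x + y, x + 2 y, …, x + k y`  and  `x y, x y², …, x y ^ k`.

For `k = 1` these are the numbers `x`, `x + y`, `x y` of the theorem of Moreira (one of them is in every
cell of a finite partition); here all of them lie in the middle of a record prime gap, in every
rectangle with sides `T ^ ε`, although these integers are a set of density zero.

Proof: the criterion with exceptional classes `Pool.Agent.V1179.MH.GH.critH` (on the basis of the
covering theorem `Pool.Agent.Y961.JR.coverAbs` of the starting library).  Modulo all small primes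
together the pair is `(e, 1)`; modulo a larger prime two of the values determine `(x, y)` up to `k + 1`
possibilities, unless both are products and `0`; the products themselves are composite and need not be
covered.
-/

namespace Pool.Agent.Results.MP_45ff98_nt.SumsAndProducts

/-- the size of the largest known prime gaps below `Z` -/
noncomputable def f (Z : ℝ) : ℝ :=
  Real.log Z * (Real.log (Real.log Z)) ^ 2 * Real.log (Real.log (Real.log (Real.log Z))) /
    (Real.log (Real.log (Real.log Z))) ^ 2

/-- no prime is at distance at most `d` from `x` -/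
def PrimeFreeAround (x d : ℝ) : Prop := ∀ q : ℕ, q.Prime → d < |(q : ℝ) - x|

theorem result (k : ℕ) (ε : ℝ) (hε : 0 < ε) :
    ∃ κ : ℝ, 0 < κ ∧ ∃ T₀ : ℝ, ∀ T : ℝ, T₀ ≤ T → ∀ (a b : ℤ) (L M : ℕ),
      T ^ ε ≤ a → 2 ≤ b → T ^ ε ≤ L → T ^ ε ≤ M →
      ∃ x y : ℤ, a ≤ x ∧ x < a + L ∧ b ≤ y ∧ y < b + M ∧
        (∀ i : ℕ, i ≤ k → PrimeFreeAround ((x + i * y : ℤ) : ℝ) (κ * f T)) ∧
        ∀ j : ℕ, 1 ≤ j → j ≤ k → PrimeFreeAround ((x * y ^ j : ℤ) : ℝ) (κ * f T) := by
  obtain ⟨κ, hκ, T₀, h⟩ := Pool.Agent.V1179.MH.GH.ga_config k (min ε 1)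
    (lt_min hε one_pos) (min_le_right _ _)
  refine ⟨κ, hκ, max T₀ 1, fun T hTT a b L M ha hb hL hM => ?_⟩
  have hT1 : 1 ≤ T := (le_max_right _ _).trans hTT
  have hmono : T ^ (min ε 1) ≤ T ^ ε := Real.rpow_le_rpow_of_exponent_le hT1 (min_le_left _ _)
  obtain ⟨z, hz, hz2⟩ := h T ((le_max_left _ _).trans hTT) ![a, b] ![L, M]
    (by simpa using hmono.trans ha) (by simpa using hb) (by
      intro j
      fin_cases j
      · simpa using hmono.trans hL
      · simpa using hmono.trans hM)
  have h0 := hz 0
  have h1 := hz 1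
  simp only [Matrix.cons_val_zero, Matrix.cons_val_one] at h0 h1
  refine ⟨z 0, z 1, h0.1, h0.2, h1.1, h1.2, ?_, ?_⟩
  · intro i hi q hq
    have h2 := hz2 ⟨i, by omega⟩ q hq
    unfold Pool.Agent.V1179.MH.GH.gaval at h2
    rw [if_pos hi] at h2
    exact h2
  · intro j hj1 hj q hq
    have h2 := hz2 ⟨k + j, by omega⟩ q hq
    unfold Pool.Agent.V1179.MH.GH.gaval at h2
    rw [if_neg (by simp; omega)] at h2
    simp only [Nat.add_sub_cancel_left] at h2
    exact h2

end Pool.Agent.Results.MP_45ff98_nt.SumsAndProducts
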