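import Pool.Agent.V11316.AT9

/-!
# Patterns of windows with and without primes at sums

Consider a table with rows `a_1, a_2, …` in a finite set `A` and columns `c_1, c_2, …` in a finite set `C`, both of size at least
`d N`. Each cell `(i, j)` of the table has its own labels `f_ij : A → [0, N]` and `g_ij : C → [0, N]`, ARBITRARY injective maps,
and its own length `H_ij`, an integer with `λ log N ≤ H_ij ≤ N`; the length `(log N) ^ 2` of the problem is allowed, and much
shorter ones. The entry of the cell is the sum `x_ij = f_ij(a_i) + g_ij(c_j)` and its window is `(x_ij, x_ij + H_ij]`. For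
example, if `A` and `C` are dense sets of integers in `[0, N]` then the entry can be `a_i + c_j` in all cells (the addition table
of `A` and `C`), or any linear form with bounded coefficients which depend on the cell.

We show that every pattern occurs: for almost all choices of `r` rows and `s` columns there is a positive proportion of choices
of `k` further rows and `l` further columns such that in the new cells, simultaneously, the number of primes in the window is more
than `1 - δ` times, respectively less than `1 + δ` times, the expected number, as prescribed by an arbitrary pattern. For windows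
of length at most `μ log N` with `μ < 1` this means: one can prescribe arbitrarily which of the windows of the new cells contain a
prime.

Nothing is said about the `r s` old cells (their contents are determined by the choice of the rows and columns).
-/

set_option autoImplicit false

namespace Pool.Agent.Results.MP_45ff98_nt.WindowPatternsInSums

open Finset

/-- the number of primes in `(x, x + H]`, divided by `H / log N` -/
noncomputable def density (N H x : ℕ) : ℝ := (((Ioc x (x + H)).filter Nat.Prime).card : ℝ) * Real.log N / H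

/-- the data of a cell: the labels `f` of the rows and `g` of the columns, the length `H` of the window and the prescription `b` -/
structure Data where
  /-- the prescription -/
  b : Bool
  /-- the labels of the rows -/
  f : ℕ → ℕ
  /-- the labels of the columns -/
  g : ℕ → ℕ
  /-- the length of the window -/
  H : ℕ

/-- the window `(x, x + H]`, `x = f a + g c`, contains many primes (if `b` is true), not many primes (if `b` is false) -/
def Cell (N : ℕ) (δ : ℝ) (q : Data) (a c : ℕ) : Prop :=
  if q.b then 1 - δ < density N q.H (q.f a + q.g c) else density N q.H (q.f a + q.g c) < 1 + δ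

/-- the window `(x, x + H]`, `x = f a + g c`, contains a prime if `b` is true, and contains no prime if `b` is false -/
def Exact (q : Data) (a c : ℕ) : Prop :=
  (∃ p : ℕ, p.Prime ∧ q.f a + q.g c < p ∧ p ≤ q.f a + q.g c + q.H) ↔ q.b = true

/-- the labels are injective on `A` and on `C`, with values at most `N`, and the length is between `H₁` and `H₂` -/
def Admissible (H₁ H₂ : ℝ) (N : ℕ) (A C : Finset ℕ) (q : Data) : Prop :=
  (Set.InjOn q.f A ∧ ∀ a ∈ A, q.f a ≤ N) ∧ (Set.InjOn q.g C ∧ ∀ c ∈ C, q.g c ≤ N) ∧ H₁ ≤ q.H ∧ q.H ≤ H₂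

/-- the data of all cells are admissible -/
def AllAdmissible {r s : ℕ} (H₁ H₂ : ℝ) (N : ℕ) (A C : Finset ℕ) (σ : Fin r → Fin s → Data) : Prop :=
  ∀ i j, Admissible H₁ H₂ N A C (σ i j)

open Classical in
/-- the ways to complete the rows `a` and the columns `c` by `k` further rows and `l` further columns, such that the property
`P q` holds for all the new cells, where `q` is the value of the patterns `σ` (old rows, new columns), `τ` (new rows, old
columns), `υ` (new rows, new columns) -/
noncomputable def completions {r s k l : ℕ} (P : Data → ℕ → ℕ → Prop) (σ : Fin r → Fin l → Data)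
    (τ : Fin k → Fin s → Data) (υ : Fin k → Fin l → Data) (A C : Finset ℕ) (a : Fin r → ℕ)
    (c : Fin s → ℕ) : Finset ((Fin k → ℕ) × (Fin l → ℕ)) :=
  (Fintype.piFinset (fun _ : Fin k => A) ×ˢ Fintype.piFinset (fun _ : Fin l => C)).filter (fun w =>
    (∀ i j, P (σ i j) (a i) (w.2 j)) ∧ (∀ i j, P (τ i j) (w.1 i) (c j)) ∧ ∀ i j, P (υ i j) (w.1 i) (w.2 j))

open Classical in
/-- the number of the choices of `r` rows and `s` columns which have less than `κ |A| ^ k |C| ^ l` completions -/
noncomputable def exceptions {r s k l : ℕ} (P : Data → ℕ → ℕ → Prop) (σ : Fin r → Fin l → Data)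
    (τ : Fin k → Fin s → Data) (υ : Fin k → Fin l → Data) (A C : Finset ℕ) (κ : ℝ) : ℕ :=
  ((Fintype.piFinset (fun _ : Fin r => A) ×ˢ Fintype.piFinset (fun _ : Fin s => C)).filter (fun z =>
    ((completions P σ τ υ A C z.1 z.2).card : ℝ) < κ * ((A.card : ℝ) ^ k * (C.card : ℝ) ^ l))).card

/-- **Main theorem.** (1) All patterns of windows with at least `1 - δ` times and windows with at most `1 + δ` times the expected
number of primes, for arbitrary lengths between `λ log N` and `N`. (2) All patterns of windows which contain a prime and windows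
which do not, for arbitrary lengths between `λ log N` and `μ log N`, `μ < 1`. In both cases `κ` does not depend on `N`, the sets,
the labels, the lengths and the patterns. -/
theorem result (r s k l : ℕ) (lam d δ μ : ℝ) (hlam : 0 < lam) (hd : 0 < d) (hδ : 0 < δ) (hμ0 : 0 < μ) (hμ : μ < 1) :
    (∃ κ : ℝ, 0 < κ ∧ ∃ N₀ : ℕ, ∀ N : ℕ, N₀ ≤ N → ∀ A C : Finset ℕ, d * (N : ℝ) ≤ A.card → d * (N : ℝ) ≤ C.card →
      ∀ (σ : Fin r → Fin l → Data) (τ : Fin k → Fin s → Data) (υ : Fin k → Fin l → Data),
        AllAdmissible (lam * Real.log N) N N A C σ → AllAdmissible (lam * Real.log N) N N A C τ →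
        AllAdmissible (lam * Real.log N) N N A C υ →
        (exceptions (Cell N δ) σ τ υ A C κ : ℝ) ≤ δ * ((A.card : ℝ) ^ r * (C.card : ℝ) ^ s)) ∧
    (∃ κ : ℝ, 0 < κ ∧ ∃ N₀ : ℕ, ∀ N : ℕ, N₀ ≤ N → ∀ A C : Finset ℕ, d * (N : ℝ) ≤ A.card → d * (N : ℝ) ≤ C.card →
      ∀ (σ : Fin r → Fin l → Data) (τ : Fin k → Fin s → Data) (υ : Fin k → Fin l → Data),
        AllAdmissible (lam * Real.log N) (μ * Real.log N) N A C σ → AllAdmissible (lam * Real.log N) (μ * Real.log N) N A C τ →
        AllAdmissible (lam * Real.log N) (μ * Real.log N) N A C υ →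
        (exceptions Exact σ τ υ A C κ : ℝ) ≤ δ * ((A.card : ℝ) ^ r * (C.card : ℝ) ^ s)) := by
  classical
  -- translation of the data
  obtain ⟨T, hT⟩ : ∃ T : Data → Bool × V11316.AT.Lb, T = fun q => (q.b, q.f, q.g, q.H) := ⟨_, rfl⟩
  have hcell : ∀ (N : ℕ) (δ : ℝ) (q : Data) (a c : ℕ), Cell N δ q a c ↔ V11316.TB.Gd δ (T q).1 (V11316.AT.BW N (T q).2 a c) := by
    intro N δ q a c
    rw [hT]
    rfl
  have hlog : Filter.Tendsto (fun N : ℕ => Real.log (N : ℝ)) Filter.atTop Filter.atTop :=
    Real.tendsto_log_atTop.comp tendsto_natCast_atTop_atTop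
  have hexc : ∀ (N : ℕ) (P : Data → ℕ → ℕ → Prop) (δ' H₁ H₂ : ℝ) (σ : Fin r → Fin l → Data) (τ : Fin k → Fin s → Data)
      (υ : Fin k → Fin l → Data) (A C : Finset ℕ) (κ T' : ℝ),
      AllAdmissible H₁ H₂ N A C σ → AllAdmissible H₁ H₂ N A C τ → AllAdmissible H₁ H₂ N A C υ →
      (∀ a c, ∀ q : Data, H₁ ≤ q.H → q.H ≤ H₂ → V11316.TB.Gd δ' (T q).1 (V11316.AT.BW N (T q).2 a c) → P q a c) →
      (((Fintype.piFinset (fun _ : Fin r => A) ×ˢ Fintype.piFinset (fun _ : Fin s => C)).filter (fun z => ¬
        (κ * ((A.card : ℝ) ^ k * (C.card : ℝ) ^ l) ≤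
          ((V11316.TB.Comp δ' (fun i j => T (σ i j)) (fun i j => T (τ i j)) (fun i j => T (υ i j)) A C
            (V11316.AT.BW N) z.1 z.2).card : ℝ)))).card : ℝ) ≤ T' →
      (exceptions P σ τ υ A C κ : ℝ) ≤ T' := by
    intro N P δ' H₁ H₂ σ τ υ A C κ T' hσ hτ hυ hP hT'
    refine le_trans (Nat.cast_le.2 ?_) hT'
    unfold exceptions
    apply card_le_card
    intro z hz
    rw [mem_filter] at hz ⊢
    refine ⟨hz.1, fun hcon => ?_⟩
    have hsub : V11316.TB.Comp δ' (fun i j => T (σ i j)) (fun i j => T (τ i j)) (fun i j => T (υ i j)) A C (V11316.AT.BW N) z.1 z.2 ⊆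
        completions P σ τ υ A C z.1 z.2 := by
      intro w hw
      unfold V11316.TB.Comp at hw
      unfold completions
      rw [mem_filter] at hw ⊢
      exact ⟨hw.1, fun i j => hP _ _ _ (hσ i j).2.2.1 (hσ i j).2.2.2 (hw.2.1 i j),
        fun i j => hP _ _ _ (hτ i j).2.2.1 (hτ i j).2.2.2 (hw.2.2.1 i j),
        fun i j => hP _ _ _ (hυ i j).2.2.1 (hυ i j).2.2.2 (hw.2.2.2 i j)⟩
    have h1 : ((V11316.TB.Comp δ' (fun i j => T (σ i j)) (fun i j => T (τ i j)) (fun i j => T (υ i j)) A C
        (V11316.AT.BW N) z.1 z.2).card : ℝ) ≤ ((completions P σ τ υ A C z.1 z.2).card : ℝ) := Nat.cast_le.2 (card_le_card hsub)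
    linarith only [hz.2, hcon, h1]
  have hlab : ∀ {r s N : ℕ} {A C : Finset ℕ} {σ : Fin r → Fin s → Data}, AllAdmissible (lam * Real.log N) N N A C σ →
      ∀ i j, V11316.AT.Lab lam N A C (T (σ i j)).2 := by
    intro r s N A C σ h i j
    rw [hT]
    obtain ⟨⟨h1, h2⟩, ⟨h3, h4⟩, h5, h6⟩ := h i j
    exact ⟨h1, h3, h2, h4, h5, by exact_mod_cast h6⟩
  constructor
  · obtain ⟨κ, hκ, h⟩ := V11316.AT.labels_table r s k l lam d (min 1 δ) δ hlam hd (lt_min one_pos hδ) (min_le_left _ _) hδ
    obtain ⟨N₀, hN₀⟩ := Filter.eventually_atTop.1 h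
    refine ⟨κ, hκ, N₀, fun N hN A C hA hC σ τ υ hσ hτ hυ => ?_⟩
    refine hexc N (Cell N δ) (min 1 δ) (lam * Real.log N) N σ τ υ A C κ _ hσ hτ hυ (fun a c q _ _ hb => ?_)
      (hN₀ N hN A C hA hC _ _ _ (hlab hσ) (hlab hτ) (hlab hυ))
    rw [hcell]
    have h1 := min_le_right 1 δ
    unfold V11316.TB.Gd at hb ⊢
    split_ifs at hb ⊢ <;> linarith only [h1, hb]
  · have hd0 : 0 < min 1 (1 / μ - 1) := by
      apply lt_min one_pos
      have : 1 < 1 / μ := by rw [lt_div_iff₀ hμ0]; linarith only [hμ]
      linarith only [this]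
    obtain ⟨κ, hκ, h⟩ := V11316.AT.labels_table r s k l lam d (min 1 (1 / μ - 1)) δ hlam hd hd0 (min_le_left _ _) hδ
    obtain ⟨N₀, hN₀⟩ := Filter.eventually_atTop.1 (h.and (hlog.eventually_gt_atTop 0))
    refine ⟨κ, hκ, N₀, fun N hN A C hA hC σ τ υ hσ hτ hυ => ?_⟩
    obtain ⟨h1, h2⟩ := hN₀ N hN
    have hN1 : 0 < N := by
      rcases Nat.eq_zero_or_pos N with h0 | h0
      · subst h0
        simp at h2
      · exact h0
    have hle : μ * Real.log N ≤ N := by
      have h3 : Real.log (N : ℝ) ≤ N - 1 := Real.log_le_sub_one_of_pos (by exact_mod_cast hN1)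
      have h4 : μ * Real.log N ≤ 1 * Real.log N := mul_le_mul_of_nonneg_right hμ.le h2.le
      linarith only [h3, h4]
    have hadm2 : ∀ {r s : ℕ} {σ : Fin r → Fin s → Data}, AllAdmissible (lam * Real.log N) (μ * Real.log N) N A C σ →
        AllAdmissible (lam * Real.log N) N N A C σ :=
      fun h i j => ⟨(h i j).1, (h i j).2.1, (h i j).2.2.1, (h i j).2.2.2.trans hle⟩
    refine hexc N Exact (min 1 (1 / μ - 1)) (lam * Real.log N) (μ * Real.log N) σ τ υ A C κ _ hσ hτ hυ (fun a c q hq1 hq2 hb => ?_)
      (h1 A C hA hC _ _ _ (hlab (hadm2 hσ)) (hlab (hadm2 hτ)) (hlab (hadm2 hυ)))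
    have hq0 : 0 < q.H := by
      have : (0 : ℝ) < q.H := lt_of_lt_of_le (mul_pos hlam h2) hq1
      exact_mod_cast this
    rw [hT] at hb
    exact V11316.AT.short_sum hμ0 hμ h2 hq0 hq2 q.b hb

end Pool.Agent.Results.MP_45ff98_nt.WindowPatternsInSums
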