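import Pool.Agent.Results.MP_31d0eb_nt.BalancedPrimes

set_option autoImplicit false

/-!
# MP_45ff98_nt: the windows `(x, x + (log x) ^ 2)` which contain a given prime

Let `I_t(x) = (x, x + (log x) ^ t)`; the problem asks for a prime in `I(x) = I_2(x)` for all `x > 8`.
Let `θ > 0`, `X` large, `X ^ θ ≤ Y ≤ X` and `lam ≥ 1`. For all but at most `C lam^(-1/2) Y / log X` of
the primes `p` in `(X, X + Y]` ALL windows `I_t(x)` in which `p` lies, with real `x` and `t ≥ 1`
and `(log x) ^ t ≤ Y / 2`, contain between `(log x) ^ (t - 1) / (4 lam)` and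
`4 lam (log x) ^ (t - 1)` primes; in particular `I(x)` contains between `log x / (4 lam)` and
`4 lam log x` primes for every `x` with `p` in `I(x)`.  The lower bound holds also for the elements of
any set `P` of primes (for `p` in `P`), for example the primes of a residue class.
-/

namespace Pool.Agent.Results.MP_45ff98_nt.WindowsOfMostPrimes

open Finset Filter
open Pool.Agent.Results.MP_31d0eb_nt.BalancedPrimes

/-- number of elements of `P` in `(x, x + (log x) ^ t)` -/
noncomputable def inWindow (P : Set ℕ) (t x : ℝ) : ℕ :=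
  {q : ℕ | q ∈ P ∧ x < q ∧ (q : ℝ) < x + Real.log x ^ t}.ncard

/-- every window `(x, x + (log x) ^ t)` in which `p` lies, `t ≥ 1`, `(log x) ^ t ≤ Y / 2`, contains at
least `(log x) ^ (t - 1) / (4 lam)` elements of `P` and at most `4 lam (log x) ^ (t - 1)` primes -/
def AllWindows (P : Set ℕ) (lam : ℝ) (Y p : ℕ) : Prop :=
  ∀ t x : ℝ, 1 ≤ t → 1 ≤ x → Real.log x ^ t ≤ Y / 2 → x < p → (p : ℝ) < x + Real.log x ^ t →
    Real.log x ^ (t - 1) / (4 * lam) ≤ inWindow P t x ∧
      (inWindow primes t x : ℝ) ≤ 4 * lam * Real.log x ^ (t - 1)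

lemma allWindows_of (P : Set ℕ) (lam : ℝ) (hlam : 1 ≤ lam) (X Y p : ℕ) (hL : 3 ≤ Real.log X)
    (hYX : Y ≤ X) (hp1 : X < p) (hp2 : p ≤ X + Y) (h : RightOrder P lam X Y p) :
    AllWindows P lam Y p := by
  intro t x ht hx1 hH hxp hpH
  set L := Real.log X with hLdef
  set H := Real.log x ^ t with hHdef
  have hYX' : (Y : ℝ) ≤ X := by exact_mod_cast hYX
  have hp1' : (X : ℝ) < p := by exact_mod_cast hp1
  have hp2' : (p : ℝ) ≤ X + Y := by exact_mod_cast hp2
  have hX0 : 0 < (X : ℝ) := by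
    by_contra hneg
    have : (X : ℝ) = 0 := le_antisymm (not_lt.1 hneg) (Nat.cast_nonneg _)
    rw [hLdef, this, Real.log_zero] at hL
    linarith
  have hxlow : (X : ℝ) / 2 < x := by linarith
  have hxup : x < 2 * X := by linarith
  have l1 : L - 1 ≤ Real.log x := by
    have e : Real.log ((X : ℝ) / 2) = L - Real.log 2 := by
      rw [Real.log_div hX0.ne' (by norm_num)]
    have := Real.log_le_log (by positivity) hxlow.le
    rw [e] at this
    linarith [Real.log_two_lt_d9]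
  have l2 : Real.log x ≤ L + 1 := by
    have e : Real.log (2 * (X : ℝ)) = Real.log 2 + L := by
      rw [Real.log_mul (by norm_num) hX0.ne']
    have := Real.log_le_log (by linarith) hxup.le
    rw [e] at this
    linarith [Real.log_two_lt_d9]
  have hl0 : 0 < Real.log x := by linarith
  have hH0 : 0 < H := Real.rpow_pos_of_pos hl0 t
  have hHt : H = Real.log x ^ (t - 1) * Real.log x := by
    rw [hHdef]
    nth_rewrite 3 [← Real.rpow_one (Real.log x)]
    rw [← Real.rpow_add hl0]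
    congr 1
    ring
  have hW1 : 1 ≤ Real.log x ^ (t - 1) := Real.one_le_rpow (by linarith) (by linarith)
  set W := Real.log x ^ (t - 1) with hWdef
  have hL0 : 0 < L := by linarith
  constructor
  · set H' := max ((p : ℝ) - x) (H / 2) with hH'
    have b1 : H' < H := by
      rw [hH', max_lt_iff]
      constructor <;> linarith
    have b2 : (p : ℝ) - x ≤ H' := le_max_left _ _
    have b3 : H / 2 ≤ H' := le_max_right _ _
    obtain ⟨r1, -⟩ := h x H' hxp (by linarith) (by linarith)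
    have r3 : (count P x H' : ℝ) ≤ inWindow P t x := by
      apply Nat.cast_le.2
      unfold count inWindow
      apply Set.ncard_le_ncard
      · rintro q ⟨q1, q2, q3⟩
        exact ⟨q1, q2, by linarith⟩
      · apply Set.Finite.subset (Finset.finite_toSet (Finset.range (⌊x + H⌋₊ + 1)))
        rintro q ⟨-, -, hq⟩
        rw [mem_coe, mem_range]
        exact Nat.lt_succ_of_le (Nat.le_floor hq.le)
    refine le_trans ?_ (r1.trans r3)
    rw [div_le_div_iff₀ (by positivity) (by positivity)]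
    have b4 : W * L ≤ 2 * H := by
      rw [hHt]
      have : L ≤ 2 * Real.log x := by linarith
      nlinarith
    calc W * (lam * L) = lam * (W * L) := by ring
      _ ≤ lam * (2 * H) := by gcongr
      _ ≤ lam * (2 * (2 * H')) := by
        apply mul_le_mul_of_nonneg_left _ (by linarith)
        linarith
      _ = H' * (4 * lam) := by ring
  · obtain ⟨-, r2⟩ := h x H hxp (by linarith) (by linarith)
    have r3 : (inWindow primes t x : ℝ) ≤ count primes x H := by
      apply Nat.cast_le.2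
      unfold count inWindow
      apply Set.ncard_le_ncard
      · rintro q ⟨q1, q2, q3⟩
        exact ⟨q1, q2, by linarith⟩
      · apply Set.Finite.subset (Finset.finite_toSet (Finset.range (⌊x + H⌋₊ + 1)))
        rintro q ⟨-, -, hq⟩
        rw [mem_coe, mem_range]
        exact Nat.lt_succ_of_le (Nat.le_floor hq)
    refine r3.trans (r2.trans ?_)
    have b4 : H / L ≤ 2 * W := by
      rw [div_le_iff₀ hL0, hHt]
      nlinarith
    calc lam * (1 + H / L) ≤ lam * (W + 2 * W) := by gcongr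
      _ ≤ 4 * lam * W := by nlinarith

theorem main (θ : ℝ) (h0 : 0 < θ) : ∃ C : ℝ, 0 < C ∧ ∀ᶠ X : ℕ in atTop, ∀ Y : ℕ,
    (X : ℝ) ^ θ ≤ Y → Y ≤ X → ∀ P ⊆ primes, ∀ lam : ℝ, 1 ≤ lam →
      ({p : ℕ | p ∈ P ∧ X < p ∧ p ≤ X + Y ∧ ¬ AllWindows P lam Y p}.ncard : ℝ) ≤
        C / √lam * (Y / Real.log X) := by
  obtain ⟨C, hC, h⟩ := Pool.Agent.Results.MP_31d0eb_nt.BalancedPrimes.result.1 θ h0
  refine ⟨C, hC, ?_⟩
  have hlogX : Tendsto (fun X : ℕ => Real.log (X : ℝ)) atTop atTop :=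
    Real.tendsto_log_atTop.comp tendsto_natCast_atTop_atTop
  filter_upwards [h, hlogX.eventually_ge_atTop 3] with X hX hL
  intro Y hY hYX P hP lam hlam
  refine le_trans ?_ (hX Y hY hYX P hP lam hlam)
  apply Nat.cast_le.2
  apply Set.ncard_le_ncard
  · rintro p ⟨p1, p2, p3, p4⟩
    exact ⟨p1, p2, p3, fun hR => p4 (allWindows_of P lam hlam X Y p hL hYX p2 p3 hR)⟩
  · apply Set.Finite.subset (Finset.finite_toSet (Ioc X (X + Y)))
    rintro p ⟨-, p2, p3, -⟩
    rw [mem_coe, mem_Ioc]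
    exact ⟨p2, p3⟩

/-- **All windows `(x, x + (log x) ^ t)` around almost every prime.**  (1) bounds the exceptions in
`(X, X + Y]`, `X ^ θ ≤ Y ≤ X`, for all sets `P` of primes; (2): for the primes in `(X, 2 X]` and Schinzel's
windows `(x, x + (log x) ^ 2)` the exceptions are a small proportion `η`. -/
theorem result :
    (∀ θ : ℝ, 0 < θ → ∃ C : ℝ, 0 < C ∧ ∀ᶠ X : ℕ in atTop, ∀ Y : ℕ,
      (X : ℝ) ^ θ ≤ Y → Y ≤ X → ∀ P ⊆ primes, ∀ lam : ℝ, 1 ≤ lam →
        ({p : ℕ | p ∈ P ∧ X < p ∧ p ≤ X + Y ∧ ¬ AllWindows P lam Y p}.ncard : ℝ) ≤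
          C / √lam * (Y / Real.log X)) ∧
    (∀ η : ℝ, 0 < η → ∃ c C : ℝ, 0 < c ∧ ∀ᶠ X : ℕ in atTop,
      ({p : ℕ | p.Prime ∧ X < p ∧ p ≤ 2 * X ∧
        ¬ ∀ x : ℝ, 8 < x → x < p → (p : ℝ) < x + Real.log x ^ (2 : ℝ) →
          c * Real.log x ≤ inWindow primes 2 x ∧ (inWindow primes 2 x : ℝ) ≤ C * Real.log x}.ncard : ℝ) ≤
        η * ({p : ℕ | p.Prime ∧ X < p ∧ p ≤ 2 * X}.ncard : ℝ)) := by
  refine ⟨main, ?_⟩
  intro η hη
  obtain ⟨θ, hθ0, hθ1, c₁, hc₁, hS⟩ := Pool.Agent.Results.MP_31d0eb_nt.BalancedPrimes.result.2.2.1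
  obtain ⟨C, hC, h⟩ := main θ hθ0
  set lam : ℝ := (C / (c₁ * η)) ^ 2 + 1 with hlamdef
  have hlam : 1 ≤ lam := by
    have : 0 ≤ (C / (c₁ * η)) ^ 2 := by positivity
    linarith
  refine ⟨1 / (4 * lam), 4 * lam, by positivity, ?_⟩
  have hlogX : Tendsto (fun X : ℕ => Real.log (X : ℝ)) atTop atTop :=
    Real.tendsto_log_atTop.comp tendsto_natCast_atTop_atTop
  have hsmall : ∀ᶠ X : ℕ in atTop, (2 * Real.log (X : ℝ)) ^ (2 : ℝ) ≤ (X : ℝ) / 2 := by
    have e := (isLittleO_log_rpow_rpow_atTop 2 (zero_lt_one' ℝ)).bound (c := 1 / 8) (by norm_num)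
    have e2 := tendsto_natCast_atTop_atTop (R := ℝ) |>.eventually e
    filter_upwards [e2, hlogX.eventually_ge_atTop 1, eventually_ge_atTop 1] with X hX hL hX1
    have hX1' : (1 : ℝ) ≤ X := by exact_mod_cast hX1
    rw [Real.rpow_one, Real.norm_of_nonneg (by positivity), Real.norm_of_nonneg (by positivity)] at hX
    rw [Real.mul_rpow (by norm_num) (by linarith)]
    have : (2 : ℝ) ^ (2 : ℝ) = 4 := by
      rw [show (2 : ℝ) ^ (2 : ℝ) = (2 : ℝ) ^ (2 : ℕ) from Real.rpow_natCast 2 2]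
      norm_num
    rw [this]
    linarith
  filter_upwards [h, hS, hsmall, hlogX.eventually_ge_atTop 3, eventually_ge_atTop 1] with X hX hSX hsm hL hX1
  have hX1' : (1 : ℝ) ≤ X := by exact_mod_cast hX1
  have hXX : (X : ℝ) ^ θ ≤ (X : ℝ) := by
    calc (X : ℝ) ^ θ ≤ (X : ℝ) ^ (1 : ℝ) := Real.rpow_le_rpow_of_exponent_le hX1' hθ1.le
      _ = X := Real.rpow_one _
  have a1 := hX X hXX le_rfl primes subset_rfl lam hlam
  have a2 := hSX X hXX le_rfl
  rw [← two_mul] at a1 a2
  have hYL : 0 ≤ (X : ℝ) / Real.log X := by positivity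
  have a3 : C / √lam ≤ η * c₁ := by
    have hs : C / (c₁ * η) ≤ √lam := by
      apply Real.le_sqrt_of_sq_le
      rw [hlamdef]
      linarith
    have hs0 : 0 < √lam := Real.sqrt_pos.2 (by linarith)
    rw [div_le_iff₀ hs0]
    rw [div_le_iff₀ (by positivity)] at hs
    linarith
  have a4 : ({p : ℕ | p.Prime ∧ X < p ∧ p ≤ 2 * X ∧
        ¬ ∀ x : ℝ, 8 < x → x < p → (p : ℝ) < x + Real.log x ^ (2 : ℝ) →
          1 / (4 * lam) * Real.log x ≤ inWindow primes 2 x ∧
          (inWindow primes 2 x : ℝ) ≤ 4 * lam * Real.log x}.ncard : ℝ) ≤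
      ({p : ℕ | p ∈ primes ∧ X < p ∧ p ≤ 2 * X ∧ ¬ AllWindows primes lam X p}.ncard : ℝ) := by
    apply Nat.cast_le.2
    apply Set.ncard_le_ncard
    · rintro p ⟨p1, p2, p3, p4⟩
      refine ⟨p1, p2, p3, fun hF => p4 ?_⟩
      intro x b1 b2 b3
      have p3' : (p : ℝ) ≤ 2 * X := by exact_mod_cast p3
      have b4 : Real.log x ≤ 2 * Real.log X := by
        have e : Real.log (2 * (X : ℝ)) = Real.log 2 + Real.log X := by
          rw [Real.log_mul (by norm_num) (by linarith)]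
        have := Real.log_le_log (by linarith) (b2.le.trans p3')
        rw [e] at this
        linarith [Real.log_two_lt_d9]
      have b5 : 0 ≤ Real.log x := Real.log_nonneg (by linarith)
      have b6 : Real.log x ^ (2 : ℝ) ≤ (X : ℝ) / 2 :=
        (Real.rpow_le_rpow b5 b4 (by norm_num)).trans hsm
      have b7 := hF 2 x (by norm_num) (by linarith) b6 b2 b3
      have b8 : Real.log x ^ ((2 : ℝ) - 1) = Real.log x := by
        norm_num
      rw [b8] at b7
      refine ⟨?_, b7.2⟩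
      calc 1 / (4 * lam) * Real.log x = Real.log x / (4 * lam) := by ring
        _ ≤ _ := b7.1
    · apply Set.Finite.subset (Finset.finite_toSet (Ioc X (2 * X)))
      rintro p ⟨-, p2, p3, -⟩
      rw [mem_coe, mem_Ioc]
      exact ⟨p2, p3⟩
  calc _ ≤ _ := a4
    _ ≤ C / √lam * (X / Real.log X) := a1
    _ ≤ η * c₁ * (X / Real.log X) := mul_le_mul_of_nonneg_right a3 hYL
    _ = η * (c₁ * X / Real.log X) := by ring
    _ ≤ _ := mul_le_mul_of_nonneg_left a2 hη.le

end Pool.Agent.Results.MP_45ff98_nt.WindowsOfMostPrimes
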